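import Pool.Agent.Helper69.MF.StA

/-!
# Project MF, module ANG: paths which avoid the axis
-/

set_option autoImplicit false

open Set Topology Filter MeasureTheory
open Pool.Agent.Helper31.CY Pool.Agent.Helper69.MF

namespace Pool.Agent.Helper16.MF

theorem ANG_pt0 (a b c : ℝ) : (pt a b c) 0 = a := by simp [pt]

theorem ANG_pt1 (a b c : ℝ) : (pt a b c) 1 = b := by simp [pt]

theorem ANG_pt2 (a b c : ℝ) : (pt a b c) 2 = c := by simp [pt]

theorem ANG_cont {X : Type} [TopologicalSpace X] {f g h : X → ℝ} (hf : Continuous f)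
    (hg : Continuous g) (hh : Continuous h) : Continuous (fun x => pt (f x) (g x) (h x)) := by
  unfold pt
  refine (PiLp.continuous_toLp 2 _).comp ?_
  refine continuous_pi ?_
  intro i
  fin_cases i
  · simpa using hf
  · simpa using hg
  · simpa using hh

theorem ANG_ev (i : Fin 3) : Continuous (fun x : E3 => x i) :=
  EuclideanSpace.proj i |>.continuous

theorem ANG_rad : Continuous rad := by
  unfold rad
  exact Real.continuous_sqrt.comp (((ANG_ev 0).pow 2).add ((ANG_ev 1).pow 2))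

/-- the point with radius `r`, height `z` and angle `u` -/
noncomputable def ANG_P (r z u : ℝ) : E3 := pt (r * Real.cos u) (r * Real.sin u) z

theorem ANG_radP {r : ℝ} (hr : 0 ≤ r) (z u : ℝ) : rad (ANG_P r z u) = r := by
  unfold rad ANG_P
  rw [ANG_pt0, ANG_pt1]
  have h : (r * Real.cos u) ^ 2 + (r * Real.sin u) ^ 2 = r ^ 2 := by
    have := Real.sin_sq_add_cos_sq u
    have e : (r * Real.cos u) ^ 2 + (r * Real.sin u) ^ 2 =
        r ^ 2 * (Real.sin u ^ 2 + Real.cos u ^ 2) := by ring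
    rw [e, this, mul_one]
  rw [h, Real.sqrt_sq hr]

theorem ANG_P2 (r z u : ℝ) : (ANG_P r z u) 2 = z := ANG_pt2 _ _ _

theorem ANG_contP {X : Type} [TopologicalSpace X] {f g h : X → ℝ} (hf : Continuous f)
    (hg : Continuous g) (hh : Continuous h) : Continuous (fun x => ANG_P (f x) (g x) (h x)) := by
  unfold ANG_P
  exact ANG_cont (hf.mul (Real.continuous_cos.comp hh)) (hf.mul (Real.continuous_sin.comp hh)) hg

theorem ANG_mem {r0 r1 h : ℝ} (h0 : 0 < r0) (h1 : 0 < r1) (x : E3) :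
    x ∈ circ r0 0 ∪ circ r1 h ↔ (rad x = r0 ∧ x 2 = 0) ∨ (rad x = r1 ∧ x 2 = h) := by
  have key : ∀ r : ℝ, 0 < r → (x 0 ^ 2 + x 1 ^ 2 = r ^ 2 ↔ rad x = r) := by
    intro r hr
    unfold rad
    constructor
    · intro e
      rw [e, Real.sqrt_sq hr.le]
    · intro e
      rw [← e, Real.sq_sqrt (by positivity)]
  constructor
  · rintro (⟨ha, hb⟩ | ⟨ha, hb⟩)
    · exact Or.inl ⟨(key r0 h0).1 ha, hb⟩
    · exact Or.inr ⟨(key r1 h1).1 ha, hb⟩
  · rintro (⟨ha, hb⟩ | ⟨ha, hb⟩)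
    · exact Or.inl ⟨(key r0 h0).2 ha, hb⟩
    · exact Or.inr ⟨(key r1 h1).2 ha, hb⟩

/-- the pair (radius, height) is not on the meridian section of the boundary -/
def ANG_av (r0 r1 h r z : ℝ) : Prop := ¬ ((r = r0 ∧ z = 0) ∨ (r = r1 ∧ z = h))

theorem ANG_nmP {r0 r1 h : ℝ} (h0 : 0 < r0) (h1 : 0 < r1) {r z : ℝ} (hr : 0 ≤ r)
    (hav : ANG_av r0 r1 h r z) (u : ℝ) : ANG_P r z u ∉ circ r0 0 ∪ circ r1 h := by
  rw [ANG_mem h0 h1, ANG_radP hr, ANG_P2]
  exact hav

/-- extension of a function on the unit interval to the line -/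
noncomputable def ANG_ex (f : unitInterval → ℝ) (x : ℝ) : ℝ :=
  f (projIcc (0 : ℝ) 1 zero_le_one x)

theorem ANG_exc {f : unitInterval → ℝ} (hf : Continuous f) : Continuous (ANG_ex f) :=
  hf.comp continuous_projIcc

theorem ANG_exv (f : unitInterval → ℝ) (s : unitInterval) : ANG_ex f (s : ℝ) = f s := by
  unfold ANG_ex
  rw [projIcc_val]

theorem ANG_ex0 (f : unitInterval → ℝ) : ANG_ex f 0 = f 0 := by
  have := ANG_exv f 0
  simpa using this

theorem ANG_ex1 (f : unitInterval → ℝ) : ANG_ex f 1 = f 1 := by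
  have := ANG_exv f 1
  simpa using this

/-- the lift of the angle -/
theorem ANG_lift (γ : unitInterval → E3) (hc : Continuous γ) (hpos : ∀ s, 0 < rad (γ s)) :
    ∃ ψ : unitInterval → ℝ, Continuous ψ ∧
      ∀ s, γ s = ANG_P (rad (γ s)) ((γ s) 2) (ψ s) := by
  have hsq : ∀ s, rad (γ s) ^ 2 = (γ s) 0 ^ 2 + (γ s) 1 ^ 2 := by
    intro s
    unfold rad
    rw [Real.sq_sqrt (by positivity)]
  have hmem : ∀ s, (⟨(γ s) 0 / rad (γ s), (γ s) 1 / rad (γ s)⟩ : ℂ) ∈ Submonoid.unitSphere ℂ := by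
    intro s
    have h1 := hpos s
    have h2 := hsq s
    have h3 : rad (γ s) ≠ 0 := h1.ne'
    refine mem_sphere_zero_iff_norm.2 ?_
    rw [Complex.norm_def]
    rw [Real.sqrt_eq_one, Complex.normSq_mk]
    field_simp
    linarith
  let c : unitInterval → Circle := fun s => ⟨⟨(γ s) 0 / rad (γ s), (γ s) 1 / rad (γ s)⟩, hmem s⟩
  have hcc : Continuous c := by
    refine Continuous.subtype_mk ?_ _
    have hr : Continuous (fun s => rad (γ s)) := ANG_rad.comp hc
    have e0 : Continuous (fun s => (γ s) 0 / rad (γ s)) :=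
      ((ANG_ev 0).comp hc).div hr (fun s => (hpos s).ne')
    have e1 : Continuous (fun s => (γ s) 1 / rad (γ s)) :=
      ((ANG_ev 1).comp hc).div hr (fun s => (hpos s).ne')
    exact Complex.equivRealProdCLM.symm.continuous.comp (e0.prodMk e1)
  obtain ⟨a, ha⟩ : ∃ a : ℝ, c 0 = Circle.exp a := by
    exact ⟨Complex.arg (c 0), (Circle.exp_arg _).symm⟩
  obtain ⟨Γ, hΓ, -⟩ := Circle.isCoveringMap_exp.exists_path_lifts (⟨c, hcc⟩ : C(unitInterval, Circle)) a ha
  refine ⟨fun s => Γ s, Γ.continuous, ?_⟩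
  intro s
  have h1 : Circle.exp (Γ s) = c s := congrFun hΓ s
  have h2 : ((Circle.exp (Γ s) : Circle) : ℂ) = ⟨(γ s) 0 / rad (γ s), (γ s) 1 / rad (γ s)⟩ := by
    rw [h1]
  rw [Circle.coe_exp] at h2
  have hre : Real.cos (Γ s) = (γ s) 0 / rad (γ s) := by
    have := congrArg Complex.re h2
    rw [Complex.exp_ofReal_mul_I_re] at this
    exact this
  have him : Real.sin (Γ s) = (γ s) 1 / rad (γ s) := by
    have := congrArg Complex.im h2
    rw [Complex.exp_ofReal_mul_I_im] at this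
    exact this
  have h3 : rad (γ s) ≠ 0 := (hpos s).ne'
  unfold ANG_P
  rw [hre, him, mul_div_cancel₀ _ h3, mul_div_cancel₀ _ h3]
  ext i
  fin_cases i
  · exact (ANG_pt0 _ _ _).symm
  · exact (ANG_pt1 _ _ _).symm
  · exact (ANG_pt2 _ _ _).symm

/-- the homotopy which rotates the angle and changes the parameter -/
theorem ANG_rotate {r0 r1 h : ℝ} (h0 : 0 < r0) (h1 : 0 < r1) (R Z : unitInterval → ℝ)
    (hR : Continuous R) (hZ : Continuous Z) (hRp : ∀ s, 0 < R s)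
    (hR01 : R 0 = R 1) (hZ01 : Z 0 = Z 1) (hav : ∀ s, ANG_av r0 r1 h (R s) (Z s))
    (σ : ℝ → ℝ) (hσ : Continuous σ) (hσ0 : σ 0 = 0) (hσ1 : σ 1 = 1)
    (ψ : unitInterval → ℝ) (hψ : Continuous ψ) (hψ01 : ψ 0 = ψ 1) :
    Hot (circ r0 0 ∪ circ r1 h)
      (fun s => ANG_P (ANG_ex R (σ s)) (ANG_ex Z (σ s)) (ψ s))
      (fun s => pt (R s) 0 (Z s)) := by
  refine ⟨fun q => ANG_P (ANG_ex R ((1 - (q.1 : ℝ)) * σ q.2 + q.1 * q.2))
    (ANG_ex Z ((1 - (q.1 : ℝ)) * σ q.2 + q.1 * q.2)) ((1 - (q.1 : ℝ)) * ψ q.2), ?_, ?_, ?_, ?_, ?_⟩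
  · have hu : Continuous (fun q : unitInterval × unitInterval =>
        (1 - (q.1 : ℝ)) * σ q.2 + q.1 * q.2) := by fun_prop
    have hv : Continuous (fun q : unitInterval × unitInterval => (1 - (q.1 : ℝ)) * ψ q.2) := by
      fun_prop
    exact ANG_contP ((ANG_exc hR).comp hu) ((ANG_exc hZ).comp hu) hv
  · intro s
    simp
  · intro s
    have e : (1 - ((1 : unitInterval) : ℝ)) * σ s + ((1 : unitInterval) : ℝ) * s = s := by simp
    show ANG_P (ANG_ex R ((1 - ((1 : unitInterval) : ℝ)) * σ s + ((1 : unitInterval) : ℝ) * s))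
      (ANG_ex Z ((1 - ((1 : unitInterval) : ℝ)) * σ s + ((1 : unitInterval) : ℝ) * s))
      ((1 - ((1 : unitInterval) : ℝ)) * ψ s) = pt (R s) 0 (Z s)
    rw [e, ANG_exv, ANG_exv]
    simp [ANG_P]
  · intro t
    have e0 : (1 - (t : ℝ)) * σ ((0 : unitInterval) : ℝ) + t * ((0 : unitInterval) : ℝ) = 0 := by
      simp [hσ0]
    have e1 : (1 - (t : ℝ)) * σ ((1 : unitInterval) : ℝ) + t * ((1 : unitInterval) : ℝ) = 1 := by
      simp [hσ1]
    show ANG_P (ANG_ex R ((1 - (t : ℝ)) * σ ((0 : unitInterval) : ℝ) + t * ((0 : unitInterval) : ℝ)))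
      (ANG_ex Z ((1 - (t : ℝ)) * σ ((0 : unitInterval) : ℝ) + t * ((0 : unitInterval) : ℝ)))
      ((1 - (t : ℝ)) * ψ 0) =
      ANG_P (ANG_ex R ((1 - (t : ℝ)) * σ ((1 : unitInterval) : ℝ) + t * ((1 : unitInterval) : ℝ)))
      (ANG_ex Z ((1 - (t : ℝ)) * σ ((1 : unitInterval) : ℝ) + t * ((1 : unitInterval) : ℝ)))
      ((1 - (t : ℝ)) * ψ 1)
    rw [e0, e1, ANG_ex0, ANG_ex0, ANG_ex1, ANG_ex1, hR01, hZ01, hψ01]
  · intro q
    exact ANG_nmP h0 h1 (hRp _).le (hav _) _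

/-- ANG -/
theorem hANG : StHTE → StANG := by
  intro hHTE r0 r1 h h0 h1 hh γ hγ hpos halt
  obtain ⟨-, -, htr, -, -, -⟩ := hHTE (circ r0 0 ∪ circ r1 h)
  obtain ⟨hc, hcl, hn⟩ := hγ
  have hR : Continuous (fun s => rad (γ s)) := ANG_rad.comp hc
  have hZ : Continuous (fun s => (γ s) 2) := (ANG_ev 2).comp hc
  have hR01 : (fun s => rad (γ s)) 0 = (fun s => rad (γ s)) 1 := by
    show rad (γ 0) = rad (γ 1)
    rw [hcl]
  have hZ01 : (fun s => (γ s) 2) 0 = (fun s => (γ s) 2) 1 := by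
    show (γ 0) 2 = (γ 1) 2
    rw [hcl]
  have hav : ∀ s, ANG_av r0 r1 h (rad (γ s)) ((γ s) 2) := by
    intro s
    have := hn s
    rw [ANG_mem h0 h1] at this
    exact this
  rcases halt with ⟨ψ, hψ, hψ01, hψg⟩ | ⟨hz0, hzh⟩
  · have := ANG_rotate (h := h) h0 h1 (fun s => rad (γ s)) (fun s => (γ s) 2) hR hZ hpos hR01 hZ01 hav
      (fun x => x) continuous_id rfl rfl ψ hψ hψ01
    have e : (fun s : unitInterval => ANG_P (ANG_ex (fun s => rad (γ s)) (s : ℝ))
        (ANG_ex (fun s => (γ s) 2) (s : ℝ)) (ψ s)) = γ := by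
      funext s
      rw [ANG_exv, ANG_exv]
      exact (hψg s).symm
    rw [e] at this
    exact this
  · obtain ⟨ψ, hψ, hψg⟩ := ANG_lift γ hc hpos
    have h1' : ∀ t : unitInterval, (0 : ℝ) ≤ t := fun t => t.2.1
    have hmn : Continuous (fun s : ℝ => min (2 * s) 1) := by fun_prop
    have hmx : Continuous (fun s : ℝ => max (2 * s - 1) 0) := by fun_prop
    have hRe := ANG_exc hR
    have hZe := ANG_exc hZ
    have hψe := ANG_exc hψ
    have hPe : ∀ x : ℝ, x = 0 ∨ x = 1 → ∀ y : ℝ, y = 0 ∨ y = 1 →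
        ANG_P (ANG_ex (fun s => rad (γ s)) x) (ANG_ex (fun s => (γ s) 2) x) (ANG_ex ψ y) = γ 0 := by
      have hx : ∀ x : ℝ, x = 0 ∨ x = 1 → ANG_ex (fun s => rad (γ s)) x = rad (γ 0) ∧
          ANG_ex (fun s => (γ s) 2) x = (γ 0) 2 := by
        rintro x (rfl | rfl)
        · exact ⟨ANG_ex0 _, ANG_ex0 _⟩
        · rw [ANG_ex1, ANG_ex1]
          exact ⟨hR01.symm, hZ01.symm⟩
      intro x hx' y hy
      rw [(hx x hx').1, (hx x hx').2]
      rcases hy with rfl | rfl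
      · rw [ANG_ex0]
        exact (hψg 0).symm
      · rw [ANG_ex1]
        have := hψg 1
        rw [← hcl] at this
        exact this.symm
    -- step 1
    have H1 : Hot (circ r0 0 ∪ circ r1 h) γ (fun s : unitInterval =>
        ANG_P (ANG_ex (fun s => rad (γ s)) (min (2 * (s : ℝ)) 1))
          (ANG_ex (fun s => (γ s) 2) (min (2 * (s : ℝ)) 1))
          (ANG_ex ψ (max (2 * (s : ℝ) - 1) 0))) := by
      refine ⟨fun q => ANG_P
        (ANG_ex (fun s => rad (γ s)) ((1 - (q.1 : ℝ)) * q.2 + q.1 * min (2 * (q.2 : ℝ)) 1))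
        (ANG_ex (fun s => (γ s) 2) ((1 - (q.1 : ℝ)) * q.2 + q.1 * min (2 * (q.2 : ℝ)) 1))
        (ANG_ex ψ ((1 - (q.1 : ℝ)) * q.2 + q.1 * max (2 * (q.2 : ℝ) - 1) 0)), ?_, ?_, ?_, ?_, ?_⟩
      · have hu : Continuous (fun q : unitInterval × unitInterval =>
            (1 - (q.1 : ℝ)) * q.2 + q.1 * min (2 * (q.2 : ℝ)) 1) := by fun_prop
        have hv : Continuous (fun q : unitInterval × unitInterval =>
            (1 - (q.1 : ℝ)) * q.2 + q.1 * max (2 * (q.2 : ℝ) - 1) 0) := by fun_prop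
        exact ANG_contP (hRe.comp hu) (hZe.comp hu) (hψe.comp hv)
      · intro s
        have e : ∀ z : ℝ, (1 - ((0 : unitInterval) : ℝ)) * s + ((0 : unitInterval) : ℝ) * z = s := by
          intro z
          simp
        show ANG_P (ANG_ex (fun s => rad (γ s))
            ((1 - ((0 : unitInterval) : ℝ)) * s + ((0 : unitInterval) : ℝ) * min (2 * (s : ℝ)) 1))
          (ANG_ex (fun s => (γ s) 2)
            ((1 - ((0 : unitInterval) : ℝ)) * s + ((0 : unitInterval) : ℝ) * min (2 * (s : ℝ)) 1))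
          (ANG_ex ψ ((1 - ((0 : unitInterval) : ℝ)) * s +
            ((0 : unitInterval) : ℝ) * max (2 * (s : ℝ) - 1) 0)) = γ s
        rw [e, e, ANG_exv, ANG_exv, ANG_exv]
        exact (hψg s).symm
      · intro s
        have e : ∀ z : ℝ, (1 - ((1 : unitInterval) : ℝ)) * s + ((1 : unitInterval) : ℝ) * z = z := by
          intro z
          simp
        show ANG_P (ANG_ex (fun s => rad (γ s))
            ((1 - ((1 : unitInterval) : ℝ)) * s + ((1 : unitInterval) : ℝ) * min (2 * (s : ℝ)) 1))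
          (ANG_ex (fun s => (γ s) 2)
            ((1 - ((1 : unitInterval) : ℝ)) * s + ((1 : unitInterval) : ℝ) * min (2 * (s : ℝ)) 1))
          (ANG_ex ψ ((1 - ((1 : unitInterval) : ℝ)) * s +
            ((1 : unitInterval) : ℝ) * max (2 * (s : ℝ) - 1) 0)) = _
        rw [e, e]
      · intro t
        refine (hPe _ (Or.inl ?_) _ (Or.inl ?_)).trans (hPe _ (Or.inr ?_) _ (Or.inr ?_)).symm
        · simp
        · simp
        · simp
        · norm_num
      · intro q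
        exact ANG_nmP h0 h1 (hpos _).le (hav _) _
    -- step 2
    have H2 : Hot (circ r0 0 ∪ circ r1 h) (fun s : unitInterval =>
        ANG_P (ANG_ex (fun s => rad (γ s)) (min (2 * (s : ℝ)) 1))
          (ANG_ex (fun s => (γ s) 2) (min (2 * (s : ℝ)) 1))
          (ANG_ex ψ (max (2 * (s : ℝ) - 1) 0)))
        (fun s : unitInterval =>
        ANG_P (ANG_ex (fun s => rad (γ s)) (min (2 * (s : ℝ)) 1))
          (ANG_ex (fun s => (γ s) 2) (min (2 * (s : ℝ)) 1)) (ψ 0)) := by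
      refine ⟨fun q => (1 - (q.1 : ℝ)) • ANG_P (ANG_ex (fun s => rad (γ s)) (min (2 * (q.2 : ℝ)) 1))
          (ANG_ex (fun s => (γ s) 2) (min (2 * (q.2 : ℝ)) 1))
          (ANG_ex ψ (max (2 * (q.2 : ℝ) - 1) 0)) +
        (q.1 : ℝ) • ANG_P (ANG_ex (fun s => rad (γ s)) (min (2 * (q.2 : ℝ)) 1))
          (ANG_ex (fun s => (γ s) 2) (min (2 * (q.2 : ℝ)) 1)) (ψ 0), ?_, ?_, ?_, ?_, ?_⟩
      · have hu : Continuous (fun q : unitInterval × unitInterval => min (2 * (q.2 : ℝ)) 1) := by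
          fun_prop
        have hv : Continuous (fun q : unitInterval × unitInterval => max (2 * (q.2 : ℝ) - 1) 0) := by
          fun_prop
        have hw : Continuous (fun q : unitInterval × unitInterval => (q.1 : ℝ)) := by fun_prop
        exact ((continuous_const.sub hw).smul
          (ANG_contP (hRe.comp hu) (hZe.comp hu) (hψe.comp hv))).add
          (hw.smul (ANG_contP (hRe.comp hu) (hZe.comp hu) continuous_const))
      · intro s
        simp
      · intro s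
        simp
      · intro t
        have e0 : ANG_ex ψ 0 = ψ 0 := ANG_ex0 ψ
        show (1 - (t : ℝ)) • ANG_P (ANG_ex (fun s => rad (γ s)) (min (2 * ((0 : unitInterval) : ℝ)) 1))
          (ANG_ex (fun s => (γ s) 2) (min (2 * ((0 : unitInterval) : ℝ)) 1))
          (ANG_ex ψ (max (2 * ((0 : unitInterval) : ℝ) - 1) 0)) +
        (t : ℝ) • ANG_P (ANG_ex (fun s => rad (γ s)) (min (2 * ((0 : unitInterval) : ℝ)) 1))
          (ANG_ex (fun s => (γ s) 2) (min (2 * ((0 : unitInterval) : ℝ)) 1)) (ψ 0) =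
          (1 - (t : ℝ)) • ANG_P (ANG_ex (fun s => rad (γ s)) (min (2 * ((1 : unitInterval) : ℝ)) 1))
          (ANG_ex (fun s => (γ s) 2) (min (2 * ((1 : unitInterval) : ℝ)) 1))
          (ANG_ex ψ (max (2 * ((1 : unitInterval) : ℝ) - 1) 0)) +
        (t : ℝ) • ANG_P (ANG_ex (fun s => rad (γ s)) (min (2 * ((1 : unitInterval) : ℝ)) 1))
          (ANG_ex (fun s => (γ s) 2) (min (2 * ((1 : unitInterval) : ℝ)) 1)) (ψ 0)
        have m0 : min (2 * ((0 : unitInterval) : ℝ)) 1 = 0 := by simp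
        have m1 : min (2 * ((1 : unitInterval) : ℝ)) 1 = 1 := by simp
        have x0 : max (2 * ((0 : unitInterval) : ℝ) - 1) 0 = 0 := by simp
        have x1 : max (2 * ((1 : unitInterval) : ℝ) - 1) 0 = 1 := by norm_num
        rw [m0, m1, x0, x1]
        rw [← e0, hPe 0 (Or.inl rfl) 0 (Or.inl rfl), hPe 1 (Or.inr rfl) 0 (Or.inl rfl),
          hPe 1 (Or.inr rfl) 1 (Or.inr rfl)]
      · rintro ⟨t, s⟩
        rcases le_total (2 * (s : ℝ)) 1 with hs | hs
        · have x0 : max (2 * (s : ℝ) - 1) 0 = 0 := max_eq_right (by linarith)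
          show (1 - (t : ℝ)) • ANG_P (ANG_ex (fun s => rad (γ s)) (min (2 * (s : ℝ)) 1))
            (ANG_ex (fun s => (γ s) 2) (min (2 * (s : ℝ)) 1))
            (ANG_ex ψ (max (2 * (s : ℝ) - 1) 0)) +
            (t : ℝ) • ANG_P (ANG_ex (fun s => rad (γ s)) (min (2 * (s : ℝ)) 1))
            (ANG_ex (fun s => (γ s) 2) (min (2 * (s : ℝ)) 1)) (ψ 0) ∉ _
          rw [x0, ANG_ex0, ← add_smul, sub_add_cancel, one_smul]
          exact ANG_nmP h0 h1 (hpos _).le (hav _) _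
        · have m1 : min (2 * (s : ℝ)) 1 = 1 := min_eq_right hs
          show (1 - (t : ℝ)) • ANG_P (ANG_ex (fun s => rad (γ s)) (min (2 * (s : ℝ)) 1))
            (ANG_ex (fun s => (γ s) 2) (min (2 * (s : ℝ)) 1))
            (ANG_ex ψ (max (2 * (s : ℝ) - 1) 0)) +
            (t : ℝ) • ANG_P (ANG_ex (fun s => rad (γ s)) (min (2 * (s : ℝ)) 1))
            (ANG_ex (fun s => (γ s) 2) (min (2 * (s : ℝ)) 1)) (ψ 0) ∉ _
          rw [m1, ANG_mem h0 h1]
          have e2 : ((1 - (t : ℝ)) • ANG_P (ANG_ex (fun s => rad (γ s)) 1)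
            (ANG_ex (fun s => (γ s) 2) 1) (ANG_ex ψ (max (2 * (s : ℝ) - 1) 0)) +
            (t : ℝ) • ANG_P (ANG_ex (fun s => rad (γ s)) 1)
            (ANG_ex (fun s => (γ s) 2) 1) (ψ 0)) 2 = (γ 0) 2 := by
            rw [PiLp.add_apply, PiLp.smul_apply, PiLp.smul_apply, ANG_P2, ANG_P2, ANG_ex1]
            show (1 - (t : ℝ)) * (γ 1) 2 + t * (γ 1) 2 = (γ 0) 2
            rw [← hcl]
            ring
          rw [e2]
          rintro (⟨-, hx⟩ | ⟨-, hx⟩)
          · exact hz0 hx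
          · exact hzh hx
    -- step 3
    have H3 := ANG_rotate (h := h) h0 h1 (fun s => rad (γ s)) (fun s => (γ s) 2) hR hZ hpos hR01
      hZ01 hav (fun s : ℝ => min (2 * s) 1) hmn (by simp) (by norm_num) (fun _ => ψ 0)
      continuous_const rfl
    exact htr _ _ _ (htr _ _ _ H1 H2) H3

end Pool.Agent.Helper16.MF
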